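import Pool.Agent.H32.LU.YStmts

/-!
Project LU, part Y, module RMU: the order of `ℤ[X] / (D, g)` is the absolute value of the
resultant.
-/

set_option autoImplicit false

open scoped BigOperators Topology Polynomial
open Polynomial

noncomputable section

namespace Pool.LU.YP

/-- The characteristic polynomial of multiplication by the root. -/
theorem rmu_charpoly (g : ℤ[X]) (hg : g.Monic) :
    (Algebra.leftMulMatrix (AdjoinRoot.powerBasis' hg).basis (AdjoinRoot.root g)).charpoly = g := by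
  set b := (AdjoinRoot.powerBasis' hg).basis with hb
  set M := Algebra.leftMulMatrix b (AdjoinRoot.root g) with hM
  have h1 : aeval (AdjoinRoot.root g) M.charpoly = 0 := by
    apply (injective_iff_map_eq_zero (Algebra.leftMulMatrix b)).mp
      (Algebra.leftMulMatrix_injective b)
    rw [← aeval_algHom_apply, ← hM, Matrix.aeval_self_charpoly]
  rw [AdjoinRoot.aeval_eq, AdjoinRoot.mk_eq_zero] at h1
  refine eq_of_monic_of_dvd_of_natDegree_le hg M.charpoly_monic h1 ?_
  rw [Matrix.charpoly_natDegree_eq_dim, Fintype.card_fin]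
  exact le_rfl

/-- The determinant of a polynomial in a matrix with complex entries. -/
theorem rmu_det {n : ℕ} (M : Matrix (Fin n) (Fin n) ℂ) (f : ℂ[X]) :
    ‖(aeval M f).det‖ = ‖f.leadingCoeff‖ ^ n *
      (f.roots.map fun α => ‖M.charpoly.eval α‖).prod := by
  let φ : ℂ[X] →* ℂ := (Matrix.detMonoidHom (n := Fin n) (R := ℂ)).comp
    ((aeval M : ℂ[X] →ₐ[ℂ] Matrix (Fin n) (Fin n) ℂ) : ℂ[X] →* Matrix (Fin n) (Fin n) ℂ)
  have h0 : ∀ p, φ p = (aeval M p).det := fun p => rfl
  have h1 : f = C f.leadingCoeff * (f.roots.map fun a => X - C a).prod :=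
    (IsAlgClosed.splits f).eq_prod_roots
  have h2 : ∀ a : ℂ, ‖φ (X - C a)‖ = ‖M.charpoly.eval a‖ := by
    intro a
    rw [h0, Matrix.eval_charpoly]
    have h3 : aeval M (X - C a) = -(Matrix.scalar (Fin n) a - M) := by
      rw [map_sub, aeval_X, aeval_C, neg_sub]
      rfl
    rw [h3, Matrix.det_neg, norm_mul, norm_pow, norm_neg, norm_one, one_pow, one_mul]
  rw [← h0]
  conv_lhs => rw [h1]
  rw [map_mul, norm_mul]
  congr 1
  · rw [h0, aeval_C, Matrix.algebraMap_eq_diagonal, Matrix.det_diagonal]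
    simp
  · rw [map_multiset_prod, Multiset.map_map]
    have h4 : ‖(f.roots.map (φ ∘ fun a => X - C a)).prod‖ =
        ((f.roots.map (φ ∘ fun a => X - C a)).map fun z => ‖z‖).prod :=
      (Multiset.prod_hom _ (normHom : ℂ →*₀ ℝ)).symm
    rw [h4, Multiset.map_map]
    congr 1
    refine Multiset.map_congr rfl fun a _ => ?_
    exact h2 a

/-- Multiplication by `D` is injective modulo `g`. -/
theorem rmu_inj (D g : ℤ[X]) (hg : g.Monic)
    (h : IsCoprime (D.map (Int.castRingHom ℚ)) (g.map (Int.castRingHom ℚ)))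
    (x : AdjoinRoot g) (hx : AdjoinRoot.mk g D * x = 0) : x = 0 := by
  obtain ⟨p, rfl⟩ := AdjoinRoot.mk_surjective x
  rw [← map_mul, AdjoinRoot.mk_eq_zero] at hx
  rw [AdjoinRoot.mk_eq_zero]
  have hinj : Function.Injective (Int.castRingHom ℚ) := (Int.castRingHom ℚ).injective_int
  rw [← map_dvd_map _ hinj hg]
  have h1 : g.map (Int.castRingHom ℚ) ∣ D.map (Int.castRingHom ℚ) * p.map (Int.castRingHom ℚ) := by
    rw [← Polynomial.map_mul]
    exact (map_dvd_map _ hinj hg).2 hx
  exact h.symm.dvd_of_dvd_mul_left h1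

/-- The order of the quotient is the determinant of multiplication by `D`. -/
theorem rmu_card (D g : ℤ[X]) (hg : g.Monic)
    (h : IsCoprime (D.map (Int.castRingHom ℚ)) (g.map (Int.castRingHom ℚ))) :
    Nat.card (ℤ[X] ⧸ Ideal.span {D, g}) = (Algebra.norm ℤ (AdjoinRoot.mk g D)).natAbs := by
  have : Module.Free ℤ (AdjoinRoot g) := hg.free_adjoinRoot
  have : Module.Finite ℤ (AdjoinRoot g) := hg.finite_adjoinRoot
  set d := AdjoinRoot.mk g D with hd
  let I : Ideal (AdjoinRoot g) := (Ideal.span {D}).map (AdjoinRoot.mk g)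
  have hI : I = Ideal.span {d} := by
    show (Ideal.span {D}).map (AdjoinRoot.mk g) = _
    rw [Ideal.map_span, Set.image_singleton]
  let N : Submodule ℤ (AdjoinRoot g) := I.restrictScalars ℤ
  have hmem : ∀ x, d * x ∈ N := fun x => by
    show d * x ∈ I
    rw [hI]
    exact Ideal.mul_mem_right x _ (Ideal.mem_span_singleton_self d)
  let f : AdjoinRoot g →+ N :=
    { toFun := fun x => ⟨d * x, hmem x⟩
      map_zero' := Subtype.ext (mul_zero d)
      map_add' := fun x y => Subtype.ext (mul_add d x y) }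
  have hf : Function.Bijective f := by
    constructor
    · rw [injective_iff_map_eq_zero]
      intro x hx
      exact rmu_inj D g hg h x (congrArg Subtype.val hx)
    · rintro ⟨y, hy⟩
      have hy' : y ∈ Ideal.span {d} := by
        rw [← hI]
        exact hy
      obtain ⟨x, hx⟩ := Ideal.mem_span_singleton.1 hy'
      exact ⟨x, Subtype.ext hx.symm⟩
  let e : AdjoinRoot g ≃+ N := AddEquiv.ofBijective f hf
  have h1 := Submodule.natAbs_det_equiv N e
  have h2 : N.subtype ∘ₗ AddMonoidHom.toIntLinearMap (e : AdjoinRoot g →+ N) =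
      Algebra.lmul ℤ (AdjoinRoot g) d := by
    ext x
    rfl
  rw [h2] at h1
  rw [Algebra.norm_apply, h1]
  have e1 : (AdjoinRoot g ⧸ N) ≃ (AdjoinRoot g ⧸ I) :=
    (Submodule.Quotient.restrictScalarsEquiv ℤ I).toEquiv
  rw [Nat.card_congr e1]
  have e2 : (ℤ[X] ⧸ Ideal.span {g}) ⧸ (Ideal.span {D}).map (Ideal.Quotient.mk (Ideal.span {g})) ≃+*
      ℤ[X] ⧸ Ideal.span {g} ⊔ Ideal.span {D} :=
    DoubleQuot.quotQuotEquivQuotSup (Ideal.span {g}) (Ideal.span {D})
  have h4 : Ideal.span {g} ⊔ Ideal.span {D} = Ideal.span {D, g} := by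
    rw [Ideal.span_insert, sup_comm]
  rw [← h4]
  exact (Nat.card_congr e2.toEquiv).symm

theorem rmu : RMUStmt := by
  intro D g hD hg h
  rw [rmu_card D g hg h]
  set b := (AdjoinRoot.powerBasis' hg).basis with hb
  set M := Algebra.leftMulMatrix b (AdjoinRoot.root g) with hM
  have h1 : Algebra.norm ℤ (AdjoinRoot.mk g D) = (aeval M D).det := by
    rw [Algebra.norm_eq_matrix_det b, hM, aeval_algHom_apply, AdjoinRoot.aeval_eq]
  rw [h1, Nat.cast_natAbs]
  have hinj : Function.Injective (Int.castRingHom ℂ) := (Int.castRingHom ℂ).injective_int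
  let MC : Matrix (Fin (AdjoinRoot.powerBasis' hg).dim) (Fin (AdjoinRoot.powerBasis' hg).dim) ℂ :=
    M.map (Int.castRingHom ℂ)
  have h2 : ((aeval M D).det : ℂ) = (aeval MC (D.map (Int.castRingHom ℂ))).det := by
    have h3 : (((aeval M D).det : ℤ) : ℂ) = Int.castRingHom ℂ (aeval M D).det := rfl
    rw [h3, RingHom.map_det]
    congr 1
    rw [aeval_def, aeval_def, hom_eval₂, eval₂_map]
    congr 1
    exact RingHom.ext_int _ _
  have h3 : |((aeval M D).det : ℝ)| = ‖((aeval M D).det : ℂ)‖ := by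
    rw [Complex.norm_intCast]
  have h4 : ((|(aeval M D).det| : ℤ) : ℝ) = |((aeval M D).det : ℝ)| := Int.cast_abs
  rw [h4, h3, h2, rmu_det]
  have h5 : MC.charpoly = g.map (Int.castRingHom ℂ) := by
    have h6 := Matrix.charpoly_map M (Int.castRingHom ℂ)
    rw [hM, rmu_charpoly g hg, ← hM] at h6
    exact h6
  rw [h5, Polynomial.leadingCoeff_map_of_injective hinj]
  congr 1
  show ‖((D.leadingCoeff : ℤ) : ℂ)‖ ^ _ = _
  rw [Complex.norm_intCast]
  rfl

end Pool.LU.YP
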