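import Pool.Agent.H32.LU.YStmts

/-!
Project LU, part Y, module WIN: the resultants of `D` and `1 + ... + X^(M-1)` grow like `|D(0)|^M`
for infinitely many `M`.
-/

set_option autoImplicit false

open scoped BigOperators Topology Polynomial

noncomputable section

namespace Pool.LU.YP

theorem win_gM_eval (M : ℕ) (a : ℂ) : (gM ℂ M).eval a * (a - 1) = a ^ M - 1 := by
  unfold gM
  rw [Polynomial.eval_finsetSum]
  simp only [Polynomial.eval_pow, Polynomial.eval_X]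
  exact geom_sum_mul a M

theorem win_min {ι : Type} (s : Finset ι) (f : ι → ℝ) (hf : ∀ i ∈ s, 0 < f i) :
    ∃ η : ℝ, 0 < η ∧ ∀ i ∈ s, η ≤ f i := by
  classical
  induction s using Finset.induction_on with
  | empty => exact ⟨1, one_pos, fun i hi => absurd hi (Finset.notMem_empty i)⟩
  | insert a s _ ih =>
    obtain ⟨η, h1, h2⟩ := ih fun i hi => hf i (Finset.mem_insert_of_mem hi)
    refine ⟨min η (f a), lt_min h1 (hf a (Finset.mem_insert_self _ _)), fun i hi => ?_⟩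
    rcases Finset.mem_insert.1 hi with rfl | hi
    · exact min_le_right _ _
    · exact (min_le_left _ _).trans (h2 i hi)

/-- infinitely many exponents are good for all numbers in `U` -/
theorem win_pigeon (U : Finset ℂ) (h1 : ∀ α ∈ U, ‖α‖ = 1)
    (h2 : ∀ α ∈ U, ∀ n : ℕ, 1 ≤ n → α ^ n ≠ 1) (Q : ℕ) (hQ : 1 ≤ Q) :
    ∃ η : ℝ, 0 < η ∧ ∀ L : ℕ, ∃ k : ℕ, L ≤ k ∧ ∀ α ∈ U, η ≤ ‖α ^ (1 + k * Q) - 1‖ := by
  classical
  obtain ⟨η, hη, h3⟩ := win_min (U ×ˢ Finset.Icc 1 U.card) (fun p => ‖p.1 ^ (p.2 * Q) - 1‖ / 2)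
    (by
      rintro ⟨α, j⟩ hp
      rw [Finset.mem_product, Finset.mem_Icc] at hp
      have h4 : α ^ (j * Q) ≠ 1 := h2 α hp.1 _ (Nat.mul_pos hp.2.1 hQ)
      have h5 : 0 < ‖α ^ (j * Q) - 1‖ := norm_pos_iff.2 (sub_ne_zero.2 h4)
      exact half_pos h5)
  refine ⟨η, hη, fun L => ?_⟩
  by_contra hcon
  push Not at hcon
  have h4 : ∀ i : ℕ, ∃ α ∈ U, ‖α ^ (1 + (L + i) * Q) - 1‖ < η := fun i =>
    hcon (L + i) (Nat.le_add_right _ _)
  choose φ hφ hφ' using h4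
  obtain ⟨i, hi, j, hj, hij, he⟩ := Finset.exists_ne_map_eq_of_card_lt_of_maps_to
    (s := Finset.range (U.card + 1)) (t := U) (f := φ) (by rw [Finset.card_range]; omega)
    (fun i _ => hφ i)
  -- the case `i < j`
  have key : ∀ i j : ℕ, i < j → j < U.card + 1 → φ i = φ j → False := by
    intro i j hij hj he
    have h5 := h3 (φ i, j - i) (by
      rw [Finset.mem_product, Finset.mem_Icc]
      exact ⟨hφ i, by omega, by omega⟩)
    have h6 := hφ' i
    have h7 := hφ' j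
    rw [← he] at h7
    have h8 : φ i ^ (1 + (L + j) * Q) - φ i ^ (1 + (L + i) * Q) =
        φ i ^ (1 + (L + i) * Q) * (φ i ^ ((j - i) * Q) - 1) := by
      have h9 : 1 + (L + j) * Q = (1 + (L + i) * Q) + (j - i) * Q := by
        obtain ⟨d, rfl⟩ := Nat.exists_eq_add_of_lt hij
        have : i + d + 1 - i = d + 1 := by omega
        rw [this]
        ring
      rw [h9, pow_add]
      ring
    have h10 : ‖φ i ^ (1 + (L + j) * Q) - φ i ^ (1 + (L + i) * Q)‖ =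
        ‖φ i ^ ((j - i) * Q) - 1‖ := by
      rw [h8, norm_mul, norm_pow, h1 _ (hφ i), one_pow, one_mul]
    have h11 : ‖φ i ^ (1 + (L + j) * Q) - φ i ^ (1 + (L + i) * Q)‖ ≤
        ‖φ i ^ (1 + (L + j) * Q) - 1‖ + ‖φ i ^ (1 + (L + i) * Q) - 1‖ := by
      have : φ i ^ (1 + (L + j) * Q) - φ i ^ (1 + (L + i) * Q) =
        (φ i ^ (1 + (L + j) * Q) - 1) - (φ i ^ (1 + (L + i) * Q) - 1) := by ring
      rw [this]
      exact norm_sub_le _ _
    have h12 : η ≤ ‖φ i ^ ((j - i) * Q) - 1‖ / 2 := h5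
    rw [h10] at h11
    linarith
  rw [Finset.mem_range] at hi hj
  rcases lt_or_gt_of_ne hij with h | h
  · exact key i j h hj he
  · exact key j i h hi he.symm

/-- a common period of finitely many roots of unity -/
theorem win_period (U : Finset ℂ) (h : ∀ α ∈ U, ∃ n : ℕ, 1 ≤ n ∧ α ^ n = 1) :
    ∃ Q : ℕ, 1 ≤ Q ∧ ∀ α ∈ U, α ^ Q = 1 := by
  classical
  induction U using Finset.induction_on with
  | empty => exact ⟨1, le_rfl, fun i hi => absurd hi (Finset.notMem_empty i)⟩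
  | insert a s _ ih =>
    obtain ⟨Q, h1, h2⟩ := ih fun i hi => h i (Finset.mem_insert_of_mem hi)
    obtain ⟨n, hn, hn'⟩ := h a (Finset.mem_insert_self _ _)
    refine ⟨n * Q, Nat.mul_pos hn h1, fun i hi => ?_⟩
    rcases Finset.mem_insert.1 hi with rfl | hi
    · rw [pow_mul, hn', one_pow]
    · rw [mul_comm, pow_mul, h2 i hi, one_pow]

/-- the lower bound for one root -/
theorem win_one (α : ℂ) (h0 : α ≠ 0) (η : ℝ) (hη : 0 < η) : ∃ c : ℝ, 0 < c ∧ ∀ M : ℕ, 1 ≤ M →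
    ((∃ n : ℕ, 1 ≤ n ∧ α ^ n = 1) → α ^ M = α) →
    ((‖α‖ = 1 ∧ ∀ n : ℕ, 1 ≤ n → α ^ n ≠ 1) → η ≤ ‖α ^ M - 1‖) →
    c * ‖α‖ ^ M ≤ ‖(gM ℂ M).eval α‖ := by
  by_cases h1 : α = 1
  · subst h1
    refine ⟨1, one_pos, fun M hM _ _ => ?_⟩
    have h2 : (gM ℂ M).eval 1 = (M : ℂ) := by
      unfold gM
      rw [Polynomial.eval_finsetSum]
      simp
    rw [h2, norm_one, one_pow, mul_one, Complex.norm_natCast]
    exact_mod_cast hM
  have hd : 0 < ‖α - 1‖ := norm_pos_iff.2 (sub_ne_zero.2 h1)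
  have key : ∀ M : ℕ, ‖(gM ℂ M).eval α‖ = ‖α ^ M - 1‖ / ‖α - 1‖ := by
    intro M
    rw [← win_gM_eval, norm_mul, mul_div_assoc, div_self hd.ne', mul_one]
  have ha : 0 < ‖α‖ := norm_pos_iff.2 h0
  rcases lt_trichotomy ‖α‖ 1 with h2 | h2 | h2
  · refine ⟨(1 - ‖α‖) / ‖α - 1‖, div_pos (by linarith) hd, fun M hM _ _ => ?_⟩
    rw [key, div_mul_eq_mul_div]
    refine div_le_div_of_nonneg_right ?_ hd.le
    have h3 : ‖α‖ ^ M ≤ ‖α‖ := by
      calc ‖α‖ ^ M ≤ ‖α‖ ^ 1 := pow_le_pow_of_le_one ha.le h2.le hM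
        _ = ‖α‖ := pow_one _
    have h4 : 1 - ‖α‖ ^ M ≤ ‖α ^ M - 1‖ := by
      have := norm_sub_norm_le (1 : ℂ) (α ^ M)
      rw [norm_one, norm_pow, norm_sub_rev] at this
      exact this
    have h5 : ‖α‖ ^ M ≤ 1 := h3.trans h2.le
    have h6 : 0 < ‖α‖ ^ M := pow_pos ha M
    nlinarith
  · by_cases h3 : ∃ n : ℕ, 1 ≤ n ∧ α ^ n = 1
    · refine ⟨1, one_pos, fun M hM h4 _ => ?_⟩
      rw [key, h4 h3, div_self hd.ne', h2, one_pow, one_mul]
    · push Not at h3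
      refine ⟨η / ‖α - 1‖, div_pos hη hd, fun M hM _ h4 => ?_⟩
      rw [key, h2, one_pow, mul_one]
      exact div_le_div_of_nonneg_right (h4 ⟨h2, h3⟩) hd.le
  · refine ⟨(1 - 1 / ‖α‖) / ‖α - 1‖, div_pos ?_ hd, fun M hM _ _ => ?_⟩
    · have : 1 / ‖α‖ < 1 := by rw [div_lt_one ha]; exact h2
      linarith
    rw [key, div_mul_eq_mul_div]
    refine div_le_div_of_nonneg_right ?_ hd.le
    have h3 : ‖α‖ ≤ ‖α‖ ^ M := by
      calc ‖α‖ = ‖α‖ ^ 1 := (pow_one _).symm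
        _ ≤ ‖α‖ ^ M := pow_le_pow_right₀ h2.le hM
    have h4 : ‖α‖ ^ M - 1 ≤ ‖α ^ M - 1‖ := by
      have := norm_sub_norm_le (α ^ M) (1 : ℂ)
      rw [norm_one, norm_pow] at this
      exact this
    have h5 : 1 ≤ 1 / ‖α‖ * ‖α‖ ^ M := by
      rw [one_div, ← div_eq_inv_mul, le_div_iff₀ ha, one_mul]
      exact h3
    linarith [h5]

theorem win : WINStmt := by
  classical
  intro D hD K hK
  set DC := D.map (Int.castRingHom ℂ) with hDC
  have hD0 : D ≠ 0 := by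
    intro h
    rw [h, Polynomial.coeff_zero] at hD
    exact hD rfl
  have hinj : Function.Injective (Int.castRingHom ℂ) := (Int.castRingHom ℂ).injective_int
  have hlead : DC.leadingCoeff = (D.leadingCoeff : ℂ) := by
    rw [hDC, Polynomial.leadingCoeff_map_of_injective hinj]
    rfl
  have hl0 : (D.leadingCoeff : ℝ) ≠ 0 := by
    exact_mod_cast Polynomial.leadingCoeff_ne_zero.2 hD0
  have hroot : ∀ α ∈ DC.roots, α ≠ 0 := by
    intro α hα h
    have h1 := Polynomial.isRoot_of_mem_roots hα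
    rw [h, Polynomial.IsRoot.def, ← Polynomial.coeff_zero_eq_eval_zero, hDC,
      Polynomial.coeff_map] at h1
    exact hD (hinj (h1.trans (map_zero _).symm))
  -- the roots of unity and the other roots of absolute value one
  let Ur : Finset ℂ := DC.roots.toFinset.filter fun α => ∃ n : ℕ, 1 ≤ n ∧ α ^ n = 1
  let Un : Finset ℂ := DC.roots.toFinset.filter fun α => ‖α‖ = 1 ∧ ∀ n : ℕ, 1 ≤ n → α ^ n ≠ 1
  obtain ⟨Q, hQ, hQ'⟩ := win_period Ur fun α hα => (Finset.mem_filter.1 hα).2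
  obtain ⟨η, hη, hP⟩ := win_pigeon Un (fun α hα => (Finset.mem_filter.1 hα).2.1)
    (fun α hα => (Finset.mem_filter.1 hα).2.2) (K * Q) (Nat.mul_pos hK hQ)
  have hc : ∀ α : ℂ, ∃ c : ℝ, 0 < c ∧ (α ≠ 0 → ∀ M : ℕ, 1 ≤ M →
      ((∃ n : ℕ, 1 ≤ n ∧ α ^ n = 1) → α ^ M = α) →
      ((‖α‖ = 1 ∧ ∀ n : ℕ, 1 ≤ n → α ^ n ≠ 1) → η ≤ ‖α ^ M - 1‖) →
      c * ‖α‖ ^ M ≤ ‖(gM ℂ M).eval α‖) := by
    intro α
    by_cases h : α = 0
    · exact ⟨1, one_pos, fun h' => absurd h h'⟩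
    · obtain ⟨c, h1, h2⟩ := win_one α h η hη
      exact ⟨c, h1, fun _ => h2⟩
  choose c hcpos hc' using hc
  have hprodpos : 0 < (DC.roots.map c).prod := by
    refine Multiset.prod_pos fun x hx => ?_
    obtain ⟨a, _, rfl⟩ := Multiset.mem_map.1 hx
    exact hcpos a
  refine ⟨(DC.roots.map c).prod / |(D.leadingCoeff : ℝ)|, div_pos hprodpos (abs_pos.2 hl0),
    fun L => ?_⟩
  obtain ⟨k, hk, hk'⟩ := hP L
  refine ⟨1 + k * (K * Q), ?_, Nat.le_add_right _ _, ?_, ?_, ?_⟩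
  · have : k * 1 ≤ k * (K * Q) := Nat.mul_le_mul_left k (Nat.mul_pos hK hQ)
    omega
  · have : 1 + k * (K * Q) = 1 + K * (k * Q) := by ring
    rw [this]
    exact Nat.add_mul_mod_self_left 1 K (k * Q)
  all_goals
    set M := 1 + k * (K * Q) with hM
    have hM1 : 1 ≤ M := Nat.le_add_right _ _
    have hbound : ∀ α ∈ DC.roots, c α * ‖α‖ ^ M ≤ ‖(gM ℂ M).eval α‖ := by
      intro α hα
      refine hc' α (hroot α hα) M hM1 ?_ ?_
      · intro h
        have h1 : α ^ Q = 1 := hQ' α (Finset.mem_filter.2 ⟨Multiset.mem_toFinset.2 hα, h⟩)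
        have h2 : M = 1 + Q * (k * K) := by rw [hM]; ring
        rw [h2, pow_add, pow_mul, h1, one_pow, mul_one, pow_one]
      · intro h
        exact hk' α (Finset.mem_filter.2 ⟨Multiset.mem_toFinset.2 hα, h⟩)
  · intro α hα h
    have h1 := hbound α hα
    rw [h, norm_zero] at h1
    have h2 : 0 < c α * ‖α‖ ^ M := mul_pos (hcpos α) (pow_pos (norm_pos_iff.2 (hroot α hα)) M)
    linarith
  · have h1 : (DC.roots.map fun α => c α * ‖α‖ ^ M).prod ≤
        (DC.roots.map fun α => ‖(gM ℂ M).eval α‖).prod :=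
      Multiset.prod_map_le_prod_map₀ _ _
        (fun α hα => mul_nonneg (hcpos α).le (pow_nonneg (norm_nonneg _) M)) hbound
    rw [Multiset.prod_map_mul, Multiset.prod_map_pow] at h1
    have h2 : |(D.coeff 0 : ℝ)| = |(D.leadingCoeff : ℝ)| * (DC.roots.map fun α => ‖α‖).prod := by
      have h3 := (IsAlgClosed.splits DC).coeff_zero_eq_leadingCoeff_mul_prod_roots
      have h4 : ‖DC.coeff 0‖ = |(D.coeff 0 : ℝ)| := by
        rw [hDC, Polynomial.coeff_map]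
        show ‖((D.coeff 0 : ℤ) : ℂ)‖ = _
        rw [Complex.norm_intCast]
      rw [← h4, h3, norm_mul, norm_mul, norm_pow, norm_neg, norm_one, one_pow, one_mul, hlead,
        Complex.norm_intCast]
      congr 1
      exact (Multiset.prod_hom DC.roots (normHom : ℂ →*₀ ℝ)).symm
    have hlp : 0 < |(D.leadingCoeff : ℝ)| := abs_pos.2 hl0
    rw [h2, mul_pow]
    have h5 : |(D.leadingCoeff : ℝ)| ^ M = |(D.leadingCoeff : ℝ)| ^ (M - 1) *
        |(D.leadingCoeff : ℝ)| := by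
      rw [← pow_succ]
      congr 1
      omega
    rw [h5]
    calc (DC.roots.map c).prod / |(D.leadingCoeff : ℝ)| *
          (|(D.leadingCoeff : ℝ)| ^ (M - 1) * |(D.leadingCoeff : ℝ)| *
            (DC.roots.map fun α => ‖α‖).prod ^ M)
        = |(D.leadingCoeff : ℝ)| ^ (M - 1) * ((DC.roots.map c).prod *
            (DC.roots.map fun α => ‖α‖).prod ^ M) := by
          field_simp
      _ ≤ _ := mul_le_mul_of_nonneg_left h1 (pow_nonneg hlp.le _)

end Pool.LU.YP
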